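import Pool.Agent.Helper30.TR.Spec
import Pool.Agent.Helper30.Tri4

/-!
# Project TR (helper30), part UB: a crude upper bound for the number of three-faces
-/

set_option autoImplicit false

namespace Pool.Agent.Helper85.TR

open Set Pool.Agent.Helper30.TriFace Pool.Agent.Helper30.TR

theorem side_chord' {n : ℕ} (D : ConvexDrawing n) {a b : ℝ × ℝ}
    (h : ∀ t ∈ Icc (0 : ℝ) 1, ∃ i j : Fin n, i ≠ j ∧
      det3 (D.pt i) (D.pt j) ((1 - t) • a + t • b) = 0) :
    ∃ i j : Fin n, i ≠ j ∧ det3 (D.pt i) (D.pt j) a = 0 ∧ det3 (D.pt i) (D.pt j) b = 0 := by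
  by_contra hc
  push Not at hc
  have key : ∀ i j : Fin n, i ≠ j →
      ¬ (det3 (D.pt i) (D.pt j) a = 0 ∧ det3 (D.pt i) (D.pt j) b = 0) := by
    rintro i j hij ⟨h1, h2⟩
    exact hc i j hij h1 h2
  have hsub : Icc (0 : ℝ) 1 ⊆ ⋃ e : Fin n × Fin n,
      {t | e.1 ≠ e.2 ∧ det3 (D.pt e.1) (D.pt e.2) ((1 - t) • a + t • b) = 0} := by
    intro t ht
    obtain ⟨i, j, hij, h0⟩ := h t ht
    exact mem_iUnion.2 ⟨(i, j), hij, h0⟩
  refine (Set.Icc_infinite (zero_lt_one : (0 : ℝ) < 1)) (Set.Finite.subset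
    (Set.finite_iUnion fun e => Set.Subsingleton.finite ?_) hsub)
  rintro s ⟨hne, hs⟩ t ⟨-, ht⟩
  rw [det3_comb _ _ _ _ (by ring)] at hs ht
  have hk := key e.1 e.2 hne
  by_contra hst
  apply hk
  have h1 : (s - t) * (det3 (D.pt e.1) (D.pt e.2) b - det3 (D.pt e.1) (D.pt e.2) a) = 0 := by
    linear_combination hs - ht
  rcases mul_eq_zero.1 h1 with h2 | h2
  · exact absurd (by linarith) hst
  · have h3 : det3 (D.pt e.1) (D.pt e.2) a = 0 := by
      have : det3 (D.pt e.1) (D.pt e.2) b = det3 (D.pt e.1) (D.pt e.2) a := by linarith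
      rw [this] at hs
      linarith
    exact ⟨h3, by linarith⟩

theorem not_col {a b c p q : ℝ × ℝ} (hpq : p ≠ q) (hv : AffineIndependent ℝ ![a, b, c]) :
    ¬ (det3 p q a = 0 ∧ det3 p q b = 0 ∧ det3 p q c = 0) := by
  rintro ⟨h0, h1, h2⟩
  rw [affineIndependent_iff_not_collinear_set] at hv
  apply hv
  rw [collinear_iff_of_mem (p₀ := a) (by simp)]
  refine ⟨q - p, ?_⟩
  have key : ∀ x : ℝ × ℝ, det3 p q x = 0 → ∃ r : ℝ, x = r • (q - p) +ᵥ a := by
    intro x hx
    obtain ⟨r, hr⟩ := line_param hpq hx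
    obtain ⟨s, hs⟩ := line_param hpq h0
    refine ⟨r - s, ?_⟩
    rw [hr, hs]
    ext <;> simp <;> ring
  intro x hx
  simp only [mem_insert_iff, mem_singleton_iff] at hx
  rcases hx with rfl | rfl | rfl
  · exact key _ h0
  · exact key _ h1
  · exact key _ h2

/-- data of a 3-face -/
def Dat {n : ℕ} (D : ConvexDrawing n) (F : Set (ℝ × ℝ))
    (q : (Fin n × Fin n) × (Fin n × Fin n) × Bool × Bool) : Prop :=
  ∃ a b c : ℝ × ℝ, AffineIndependent ℝ ![a, b, c] ∧ F = interior (convexHull ℝ {a, b, c}) ∧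
    det3 (D.pt q.1.1) (D.pt q.1.2) a = 0 ∧ det3 (D.pt q.1.1) (D.pt q.1.2) b = 0 ∧
    det3 (D.pt q.2.1.1) (D.pt q.2.1.2) a = 0 ∧ det3 (D.pt q.2.1.1) (D.pt q.2.1.2) c = 0 ∧
    det3 (D.pt q.1.1) (D.pt q.1.2) c ≠ 0 ∧ det3 (D.pt q.2.1.1) (D.pt q.2.1.2) b ≠ 0 ∧
    (q.2.2.1 = true ↔ 0 < det3 (D.pt q.1.1) (D.pt q.1.2) c) ∧
    (q.2.2.2 = true ↔ 0 < det3 (D.pt q.2.1.1) (D.pt q.2.1.2) b)

theorem exists_dat {n : ℕ} (D : ConvexDrawing n) {F : Set (ℝ × ℝ)} (hF : IsThreeFace D F) :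
    ∃ q, Dat D F q := by
  classical
  obtain ⟨hF, a, b, c, hind, hFt⟩ := hF
  have hne : F.Nonempty := by
    obtain ⟨x, hx, rfl⟩ := hF
    exact ⟨x, mem_connectedComponentIn hx⟩
  have hKcl : IsClosed (convexHull ℝ {a, b, c}) :=
    (Set.Finite.isCompact_convexHull ℝ (Set.toFinite {a, b, c})).isClosed
  have hclF : closure F = convexHull ℝ {a, b, c} := by
    rw [hFt, (convex_convexHull ℝ _).closure_interior_eq_closure_of_nonempty_interior (hFt ▸ hne),
      hKcl.closure_eq]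
  have hinj := D.convexPosition.injective
  have hside : ∀ {i j k : Fin 3}, k ≠ i → k ≠ j → ∃ p q : Fin n, p ≠ q ∧
      det3 (D.pt p) (D.pt q) (![a, b, c] i) = 0 ∧ det3 (D.pt p) (D.pt q) (![a, b, c] j) = 0 := by
    intro i j k hki hkj
    apply side_chord' D
    intro t ht
    have hcl : (1 - t) • ![a, b, c] i + t • ![a, b, c] j ∈ closure F := by
      rw [hclF, ← range_three]
      exact convex_convexHull ℝ _ (subset_convexHull ℝ _ (mem_range_self _))
        (subset_convexHull ℝ _ (mem_range_self _)) (by linarith [ht.2]) ht.1 (by ring)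
    have hnF : (1 - t) • ![a, b, c] i + t • ![a, b, c] j ∉ F := by
      rw [hFt, ← range_three]
      exact side_not_interior hind hki hkj t
    obtain ⟨i', j', hij, hseg⟩ := face_boundary hF hcl hnF
    exact ⟨i', j', hij, seg_det hseg⟩
  obtain ⟨p, q, hpq, h1, h2⟩ := hside (i := 0) (j := 1) (k := 2) (by decide) (by decide)
  obtain ⟨p', q', hpq', h1', h2'⟩ := hside (i := 0) (j := 2) (k := 1) (by decide) (by decide)
  have e1 : det3 (D.pt p) (D.pt q) a = 0 := h1
  have e2 : det3 (D.pt p) (D.pt q) b = 0 := h2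
  have e3 : det3 (D.pt p') (D.pt q') a = 0 := h1'
  have e4 : det3 (D.pt p') (D.pt q') c = 0 := h2'
  refine ⟨((p, q), (p', q'), decide (0 < det3 (D.pt p) (D.pt q) c),
    decide (0 < det3 (D.pt p') (D.pt q') b)), a, b, c, hind, hFt, e1, e2, e3, e4, ?_, ?_, ?_, ?_⟩
  · intro h
    exact not_col (fun h => hpq (hinj h)) hind ⟨e1, e2, h⟩
  · intro h
    exact not_col (fun h => hpq' (hinj h)) hind ⟨e3, h, e4⟩
  · simp
  · simp

/-- a point of a triangle near to the first vertex -/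
theorem mem_int {a b c : ℝ × ℝ} (hind : AffineIndependent ℝ ![a, b, c]) {u v : ℝ} (hu : 0 < u)
    (hv : 0 < v) (huv : u + v < 1) :
    (1 - u - v) • a + u • b + v • c ∈ interior (convexHull ℝ {a, b, c}) := by
  have htop : affineSpan ℝ (range ![a, b, c]) = ⊤ := by
    rw [hind.affineSpan_eq_top_iff_card_eq_finrank_add_one]
    simp
  let B : AffineBasis (Fin 3) ℝ (ℝ × ℝ) := ⟨![a, b, c], hind, htop⟩
  have hB : (B : Fin 3 → ℝ × ℝ) = ![a, b, c] := rfl
  rw [← range_vec, ← hB, B.interior_convexHull]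
  have hw : ∑ i, (![1 - u - v, u, v] : Fin 3 → ℝ) i = 1 := by
    rw [Fin.sum_univ_three]
    simp
    ring
  have hx : (1 - u - v) • a + u • b + v • c =
      Finset.univ.affineCombination ℝ B ![1 - u - v, u, v] := by
    rw [Finset.affineCombination_eq_linear_combination _ _ _ hw, Fin.sum_univ_three, hB]
    simp
  rw [hx]
  intro i
  rw [B.coord_apply_combination_of_mem (Finset.mem_univ i) hw]
  fin_cases i
  · simpa using by linarith
  · simpa using hu
  · simpa using hv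

/-- coordinates with respect to a triangle -/
theorem coords {a b c p q r s : ℝ × ℝ} (hind : AffineIndependent ℝ ![a, b, c])
    (ea : det3 p q a = 0) (eb : det3 p q b = 0) (ga : det3 r s a = 0) (gc : det3 r s c = 0)
    (x : ℝ × ℝ) : ∃ u v : ℝ, x = (1 - u - v) • a + u • b + v • c ∧
      det3 r s x = u * det3 r s b ∧ det3 p q x = v * det3 p q c := by
  have htop : affineSpan ℝ (range ![a, b, c]) = ⊤ := by
    rw [hind.affineSpan_eq_top_iff_card_eq_finrank_add_one]
    simp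
  let B : AffineBasis (Fin 3) ℝ (ℝ × ℝ) := ⟨![a, b, c], hind, htop⟩
  have hB : (B : Fin 3 → ℝ × ℝ) = ![a, b, c] := rfl
  have hs : B.coord 0 x + B.coord 1 x + B.coord 2 x = 1 := by
    have := B.sum_coord_apply_eq_one x
    rwa [Fin.sum_univ_three] at this
  have hx : x = B.coord 0 x • a + B.coord 1 x • b + B.coord 2 x • c := by
    have := B.linear_combination_coord_eq_self x
    rw [Fin.sum_univ_three, hB] at this
    simpa using this.symm
  refine ⟨B.coord 1 x, B.coord 2 x, ?_, ?_, ?_⟩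
  · conv_lhs => rw [hx]
    congr 3
    linarith
  · conv_lhs => rw [hx]
    rw [det3_comb3 _ _ _ _ _ hs, ga, gc]; ring
  · conv_lhs => rw [hx]
    rw [det3_comb3 _ _ _ _ _ hs, ea, eb]; ring

theorem pos_of_iff {x y u : ℝ} (hx : x ≠ 0) (hy : y ≠ 0) (h : 0 < x ↔ 0 < y) (hu : y = u * x) :
    0 < u := by
  rcases lt_or_gt_of_ne hx with h1 | h1
  · have h2 : ¬ 0 < y := fun h3 => by
      have := h.2 h3
      linarith
    have h3 : y < 0 := lt_of_le_of_ne (not_lt.1 h2) hy
    by_contra hc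
    push Not at hc
    have := mul_nonneg_of_nonpos_of_nonpos hc h1.le
    linarith
  · have h2 : 0 < y := h.1 h1
    rw [hu] at h2
    exact pos_of_mul_pos_left h2 h1.le

theorem dat_inj {n : ℕ} (D : ConvexDrawing n) {F F' : Set (ℝ × ℝ)} (hF : IsThreeFace D F)
    (hF' : IsThreeFace D F') {q : (Fin n × Fin n) × (Fin n × Fin n) × Bool × Bool}
    (h : Dat D F q) (h' : Dat D F' q) : F = F' := by
  obtain ⟨⟨i, j⟩, ⟨k, l⟩, s1, s2⟩ := q
  obtain ⟨a, b, c, hind, hFt, ea, eb, ga, gc, ec, gb, hs1, hs2⟩ := h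
  obtain ⟨a', b', c', hind', hFt', ea', eb', ga', gc', ec', gb', hs1', hs2'⟩ := h'
  simp only at ea eb ga gc ec gb hs1 hs2 ea' eb' ga' gc' ec' gb' hs1' hs2'
  generalize D.pt i = P at *
  generalize D.pt j = Q at *
  generalize D.pt k = R at *
  generalize D.pt l = S at *
  obtain ⟨u1, v1, x1, y1, z1⟩ := coords hind ea eb ga gc a'
  obtain ⟨u2, v2, x2, y2, z2⟩ := coords hind ea eb ga gc b'
  obtain ⟨u3, v3, x3, y3, z3⟩ := coords hind ea eb ga gc c'
  have hu1 : u1 = 0 := by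
    rw [ga'] at y1
    exact (mul_eq_zero.1 y1.symm).resolve_right gb
  have hv1 : v1 = 0 := by
    rw [ea'] at z1
    exact (mul_eq_zero.1 z1.symm).resolve_right ec
  have hv2 : v2 = 0 := by
    rw [eb'] at z2
    exact (mul_eq_zero.1 z2.symm).resolve_right ec
  have hu3 : u3 = 0 := by
    rw [gc'] at y3
    exact (mul_eq_zero.1 y3.symm).resolve_right gb
  have hu2 : 0 < u2 := pos_of_iff gb gb' (hs2.symm.trans hs2') y2
  have hv3 : 0 < v3 := pos_of_iff ec ec' (hs1.symm.trans hs1') z3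
  set p1 : ℝ := 1 / (4 * (1 + u2)) with hp1
  set p2 : ℝ := 1 / (4 * (1 + v3)) with hp2
  have hp1' : 0 < p1 := by positivity
  have hp2' : 0 < p2 := by positivity
  have f1 : p1 * (1 + u2) = 1 / 4 := by
    rw [hp1]
    field_simp
  have f2 : p2 * (1 + v3) = 1 / 4 := by
    rw [hp2]
    field_simp
  have g1 : 0 < p1 * u2 := by positivity
  have g2 : 0 < p2 * v3 := by positivity
  have m1 := mem_int hind' hp1' hp2' (by nlinarith)
  have m2 := mem_int hind g1 g2 (by nlinarith)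
  have hz : (1 - p1 - p2) • a' + p1 • b' + p2 • c' =
      (1 - p1 * u2 - p2 * v3) • a + (p1 * u2) • b + (p2 * v3) • c := by
    rw [x1, x2, x3, hu1, hv1, hv2, hu3]
    ext
    · simp only [Prod.fst_add, Prod.smul_fst, smul_eq_mul]
      ring
    · simp only [Prod.snd_add, Prod.smul_snd, smul_eq_mul]
      ring
  rw [← hz, ← hFt] at m2
  rw [← hFt'] at m1
  obtain ⟨⟨x, hx, hxF⟩, -⟩ := hF
  obtain ⟨⟨y, hy, hyF⟩, -⟩ := hF'
  rw [hxF] at m2
  rw [hyF] at m1
  rw [hxF, hyF, connectedComponentIn_eq m1, connectedComponentIn_eq m2]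

theorem main : S_UB := by
  intro n D
  classical
  have hf : ∀ F : {F | IsThreeFace D F}, ∃ q, Dat D F.1 q := fun F => exists_dat D F.2
  choose f hf using hf
  have hinj : Function.Injective f := by
    intro F F' hFF
    apply Subtype.ext
    have h1 := hf F
    rw [hFF] at h1
    exact dat_inj D F.2 F'.2 h1 (hf F')
  have hc := Nat.card_le_card_of_injective f hinj
  unfold numThreeFaces
  rw [← Nat.card_coe_set_eq]
  refine le_trans hc (le_of_eq ?_)
  simp [Nat.card_eq_fintype_card]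
  ring

end Pool.Agent.Helper85.TR
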